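import Pool.Agent.QSB.StmtsC
import Pool.Agent.Helper60_QSN.ALN

set_option autoImplicit false

namespace Pool.Agent.QSB.H50

open Finset Matrix Pool.Agent.QSX Pool.Agent.QSB
open Pool.Agent.QSN.H60 (nF_real brL brR acL acR)

theorem map_br {X : Dat} (hX : MB X) {M M' : Type} [AddCommGroup M] [Module ℝ M]
    [AddCommGroup M'] [Module ℝ M'] (f : M →ₗ[ℝ] M') (C : hX.ι → M) (l l' : hX.ι) :
    f (hX.br C l l') = hX.br (fun t => f (C t)) l l' := by
  unfold MB.br
  rw [map_list_sum, List.map_map]
  congr 1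
  apply List.map_congr_left
  intro t _
  simp only [Function.comp_apply, map_smul]

theorem wke (brn : Pool.Agent.QSB.BrnStmt) (wtx : Pool.Agent.QSB.WtxStmt) :
    Pool.Agent.QSB.WkeStmt := by
  classical
  intro X Y hX P hPb κ hκ C hC hli
  obtain ⟨hn, hw, hbr, -⟩ := hC
  obtain ⟨S, hS⟩ := hX.scal (fun j => (κ j)⁻¹) (fun j => inv_pos.2 (hκ j))
  set P' : X.b →ₗ[ℝ] (Fin Y.m → ℝ) := P.comp S with hP'
  have key : ∀ l i k, C l i k ≠ 0 → ∀ a : X.b, P' a i - P' a k = hX.rt l a := by
    intro l i k hne a
    have h1 := hw l i k hne (S a)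
    have h2 := hS l a
    show P (S a) i - P (S a) k = hX.rt l a
    rw [h1, h2, ← mul_assoc, mul_inv_cancel₀ (hκ _).ne', one_mul]
  set B : Module.Basis hX.ι ℝ X.n :=
    (Module.Basis.span hX.lin).map (LinearEquiv.ofEq _ _ hX.span_e) with hB
  have hBe : ∀ l, ((B l : X.n) : Matrix (Fin X.m) (Fin X.m) ℝ) = hX.e l := by
    intro l
    rw [hB, Module.Basis.map_apply, LinearEquiv.coe_ofEq_apply, Module.Basis.span_apply]
  set T : X.n →ₗ[ℝ] Matrix (Fin Y.m) (Fin Y.m) ℝ := B.constr ℝ C with hT
  have hTB : ∀ l, T (B l) = C l := fun l => Module.Basis.constr_basis B ℝ C l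
  have hTn : ∀ x, T x ∈ Y.n := by
    intro x
    have h1 : T x ∈ LinearMap.range T := ⟨x, rfl⟩
    rw [hT, Module.Basis.constr_range] at h1
    have h2 : Submodule.span ℝ (Set.range C) ≤ Y.n := by
      rw [Submodule.span_le]
      rintro _ ⟨l, rfl⟩
      exact nF_real Y _ (hn l)
    exact h2 h1
  have hlinC : ∀ z : hX.ι → ℝ, ∑ l, z l • C l = 0 → ∀ l, z l = 0 := by
    intro z hz l₀
    have hs : ∑ t ∈ Finset.univ.filter (fun t => hX.rt t = hX.rt l₀), z t • C t = 0 := by
      ext i k
      have h3 := congrFun (congrFun hz i) k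
      rw [Matrix.sum_apply, Matrix.zero_apply] at h3
      rw [Matrix.sum_apply, Matrix.zero_apply, Finset.sum_filter]
      by_cases hik : ∃ t, hX.rt t = hX.rt l₀ ∧ C t i k ≠ 0
      · obtain ⟨t₀, ht₀, htn⟩ := hik
        refine Eq.trans ?_ h3
        apply Finset.sum_congr rfl
        intro l _
        by_cases hl : hX.rt l = hX.rt l₀
        · rw [if_pos hl]
        · have h0 : C l i k = 0 := by
            by_contra h
            apply hl
            ext a
            rw [← key l i k h a, ← ht₀, ← key t₀ i k htn a]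
          rw [if_neg hl, Matrix.smul_apply, h0, smul_zero]
      · push Not at hik
        apply Finset.sum_eq_zero
        intro l _
        by_cases hl : hX.rt l = hX.rt l₀
        · rw [if_pos hl, Matrix.smul_apply, hik l hl, smul_zero]
        · rw [if_neg hl]
    rw [Finset.sum_subtype (p := fun t => hX.rt t = hX.rt l₀)
      (Finset.univ.filter (fun t => hX.rt t = hX.rt l₀)) (by intro x; simp)] at hs
    exact Fintype.linearIndependent_iff.1 (hli l₀) (fun t => z t.1) hs ⟨l₀, rfl⟩
  have hC0 : ∀ l, C l ≠ 0 := by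
    intro l hl
    have h1 := hlinC (Pi.single l 1) (by
      apply Finset.sum_eq_zero
      intro l' _
      by_cases h : l' = l
      · rw [h, hl, smul_zero]
      · rw [Pi.single_eq_of_ne h, zero_smul]) l
    rw [Pi.single_eq_same] at h1
    exact one_ne_zero h1
  have hTinj : Function.Injective T := by
    rw [injective_iff_map_eq_zero]
    intro x hx
    have h1 : T x = ∑ l, B.equivFun x l • C l := Module.Basis.constr_apply_fintype ℝ B C x
    rw [hx] at h1
    have h2 : B.equivFun x = 0 := funext (hlinC _ h1.symm)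
    exact (LinearEquiv.map_eq_zero_iff B.equivFun).1 h2
  have hPinj : Function.Injective P' := by
    rw [injective_iff_map_eq_zero]
    intro a ha
    apply hX.sep
    intro l
    obtain ⟨i, k, hik⟩ : ∃ i k, C l i k ≠ 0 := by
      by_contra hcon
      push Not at hcon
      exact hC0 l (Matrix.ext hcon)
    rw [← key l i k hik a, ha]
    simp
  have hP'b : ∀ a, P' a ∈ Y.b := fun a => hPb (S a)
  refine ⟨T, P', hTn, hP'b, hTinj, hPinj, ?_, ?_⟩
  · intro a x
    have hlin : acL X T a = acR X T (P' a) := by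
      apply B.ext
      intro l
      show T ⟨diagonal (a : Fin X.m → ℝ) * ((B l : X.n) : Matrix (Fin X.m) (Fin X.m) ℝ) -
        (B l : X.n) * diagonal (a : Fin X.m → ℝ), _⟩ =
        diagonal (P' a) * T (B l) - T (B l) * diagonal (P' a)
      have h1 : (⟨diagonal (a : Fin X.m → ℝ) * ((B l : X.n) : Matrix (Fin X.m) (Fin X.m) ℝ) -
        (B l : X.n) * diagonal (a : Fin X.m → ℝ), X.stab a a.2 _ (B l).2⟩ : X.n) =
          hX.rt l a • B l := by
        apply Subtype.ext
        show diagonal (a : Fin X.m → ℝ) * ((B l : X.n) : Matrix (Fin X.m) (Fin X.m) ℝ) -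
          (B l : X.n) * diagonal (a : Fin X.m → ℝ) =
          hX.rt l a • ((B l : X.n) : Matrix (Fin X.m) (Fin X.m) ℝ)
        rw [hBe, hX.wt l a]
      rw [h1, map_smul, hTB]
      ext i k
      rw [Matrix.smul_apply, Matrix.sub_apply, Matrix.diagonal_mul, Matrix.mul_diagonal,
        smul_eq_mul]
      by_cases h0 : C l i k = 0
      · rw [h0]
        ring
      · rw [← key l i k h0 a]
        ring
    exact LinearMap.congr_fun hlin x
  · intro ρ ρ' hρ x y hx hy
    -- the difference of the two bilinear maps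
    set D : X.n →ₗ[ℝ] X.n →ₗ[ℝ] Matrix (Fin Y.m) (Fin Y.m) ℝ := brL X T - brR X T with hD
    have hDB : ∀ l l', hX.rt l = ρ → hX.rt l' = ρ' → D (B l) (B l') = 0 := by
      intro l l' hl hl'
      have hll : hX.Np l l' := by
        intro c
        rw [hl, hl']
        exact hρ c
      rw [hD, LinearMap.sub_apply, LinearMap.sub_apply, sub_eq_zero]
      show T ⟨((B l : X.n) : Matrix (Fin X.m) (Fin X.m) ℝ) * (B l' : X.n) -
        (B l' : X.n) * (B l : X.n), _⟩ = T (B l) * T (B l') - T (B l') * T (B l)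
      have h1 : (⟨((B l : X.n) : Matrix (Fin X.m) (Fin X.m) ℝ) * (B l' : X.n) -
          (B l' : X.n) * (B l : X.n), X.lie _ (B l).2 _ (B l').2⟩ : X.n) =
          hX.br (fun t => B t) l l' := by
        apply Subtype.ext
        show ((B l : X.n) : Matrix (Fin X.m) (Fin X.m) ℝ) * (B l' : X.n) -
          (B l' : X.n) * (B l : X.n) = X.n.subtype (hX.br (fun t => B t) l l')
        rw [map_br, hBe, hBe, brn X hX l l' hll]
        congr 1
        funext t
        exact (hBe t).symm
      rw [h1, map_br, hTB, hTB, hbr l l' hll]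
      congr 1
      funext t
      exact hTB t
    -- elements of a weight in the span of the basis vectors
    have hsp : ∀ (σ : X.b →ₗ[ℝ] ℝ) (z : X.n),
        (∀ c : X.b, diagonal (c : Fin X.m → ℝ) * (z : Matrix (Fin X.m) (Fin X.m) ℝ) -
          (z : Matrix (Fin X.m) (Fin X.m) ℝ) * diagonal (c : Fin X.m → ℝ) =
            σ c • (z : Matrix (Fin X.m) (Fin X.m) ℝ)) →
        z ∈ Submodule.span ℝ (B '' {t | hX.rt t = σ}) := by
      intro σ z hz
      have h1 := wtx X hX σ z z.2 hz
      have h2 : (hX.e '' {t | hX.rt t = σ}) = X.n.subtype '' (B '' {t | hX.rt t = σ}) := by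
        rw [Set.image_image]
        apply Set.image_congr
        intro t _
        exact (hBe t).symm
      rw [h2, Submodule.span_image, Submodule.mem_map] at h1
      obtain ⟨z', hz', hzz⟩ := h1
      have h3 : z' = z := Subtype.ext hzz
      rw [← h3]
      exact hz'
    have hx' := hsp ρ x hx
    have hy' := hsp ρ' y hy
    have h4 : D x y = 0 := by
      have h5 : ∀ l', hX.rt l' = ρ' → D x (B l') = 0 := by
        intro l' hl'
        have h6 : Submodule.span ℝ (B '' {t | hX.rt t = ρ}) ≤ LinearMap.ker (D.flip (B l')) := by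
          rw [Submodule.span_le]
          rintro _ ⟨l, hl, rfl⟩
          exact hDB l l' hl hl'
        exact h6 hx'
      have h7 : Submodule.span ℝ (B '' {t | hX.rt t = ρ'}) ≤ LinearMap.ker (D x) := by
        rw [Submodule.span_le]
        rintro _ ⟨l', hl', rfl⟩
        exact h5 l' hl'
      exact h7 hy'
    rw [hD, LinearMap.sub_apply, LinearMap.sub_apply, sub_eq_zero] at h4
    exact h4

end Pool.Agent.QSB.H50
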